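import Pool.Agent.W543.GE.Stm

/-! Project GE, part GOODLIM. -/

set_option autoImplicit false

open scoped TensorProduct Kronecker

universe u

namespace Pool.Agent.W753.GE

open Pool.Agent.W543.GE

section

variable {K : Type u} [Field K] {n : ℕ}

theorem mem_aug (a : A K n) : a ∈ aug K n ↔ eps a = 0 := by
  unfold aug
  rw [LinearMap.mem_ker]
  rfl

theorem aug_left (a : A K n) {m : ℕ} (hm : 1 ≤ m) {c : A K n} (hc : c ∈ aug K n ^ m) :
    a * c ∈ aug K n ^ m := by
  obtain ⟨k, rfl⟩ : ∃ k, m = k + 1 := ⟨m - 1, by omega⟩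
  rw [pow_succ'] at hc ⊢
  refine Submodule.mul_induction_on hc ?_ ?_
  · intro u hu w hw
    rw [← mul_assoc]
    refine Submodule.mul_mem_mul ?_ hw
    rw [mem_aug] at hu ⊢
    rw [map_mul, hu, mul_zero]
  · intro u w hu hw
    rw [mul_add]
    exact Submodule.add_mem _ hu hw

theorem aug_right (a : A K n) {m : ℕ} (hm : 1 ≤ m) {c : A K n} (hc : c ∈ aug K n ^ m) :
    c * a ∈ aug K n ^ m := by
  obtain ⟨k, rfl⟩ : ∃ k, m = k + 1 := ⟨m - 1, by omega⟩
  rw [pow_succ] at hc ⊢
  refine Submodule.mul_induction_on hc ?_ ?_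
  · intro w hw u hu
    rw [mul_assoc]
    refine Submodule.mul_mem_mul hw ?_
    rw [mem_aug] at hu ⊢
    rw [map_mul, hu, zero_mul]
  · intro u w hu hw
    rw [add_mul]
    exact Submodule.add_mem _ hu hw

theorem sub_mem_aug (ψ : A K n →ₐ[K] A K n) {m : ℕ} (hm : 1 ≤ m)
    (h : ∀ i, ψ (x i) - x i ∈ aug K n ^ m) (c : A K n) : ψ c - c ∈ aug K n ^ m := by
  induction c using FreeAlgebra.induction with
  | grade0 r =>
    rw [AlgHom.commutes, sub_self]
    exact Submodule.zero_mem _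
  | grade1 i => exact h i
  | mul a b ha hb =>
    have e : ψ (a * b) - a * b = (ψ a - a) * ψ b + a * (ψ b - b) := by
      rw [map_mul]
      noncomm_ring
    rw [e]
    exact Submodule.add_mem _ (aug_right _ hm ha) (aug_left _ hm hb)
  | add a b ha hb =>
    have e : ψ (a + b) - (a + b) = (ψ a - a) + (ψ b - b) := by
      rw [map_add]
      abel
    rw [e]
    exact Submodule.add_mem _ ha hb

end

theorem t_GOODLIM : GOODLIM_stmt.{u} := by
  intro K _ n φ hφ m hm
  obtain ⟨ψ, θ, h1, h2⟩ := hφ m hm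
  refine ⟨θ, fun i => ?_⟩
  rw [h1]
  exact sub_mem_aug ψ hm h2 (θ (x i))

end Pool.Agent.W753.GE
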